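import Mathlib
import Pool.Agent.H148R3.NI8

/-!
# The numerical index of complex `ℓ_p` is not that of `ℓ_p^2`

`numRadius` and `numIndex` (the numerical radius of an operator and the numerical index of a
complex normed space) are defined in `Pool/Agent/H148R3/NIDefs.lean`.

Outline of the proof.  Write `1/p = 1/2 - δ`.

* *Lower bound* `n(ℓ_p^2) ≥ 1/(2 + 0.02 δ)` for small `δ > 0`.  Write the states of `ℓ_p^2` as
  `x = (ρ^{1/p}, (1-ρ)^{1/p} ω)` and `x* = (ρ^{1/q}, (1-ρ)^{1/q} ω̄)`.  A Hermitian `2 × 2`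
  pairing matrix is, up to an error `2 δ |trace|`, a real combination of states with total mass
  `R = √((α-γ)² + 4|β|²)`; splitting `w ⊗ x` in its Hermitian and skew parts gives
  `|⟨w, T x⟩| ≤ v(T) (H + √(H² - t²) + 2 δ t)`, `H = ‖w‖₂ ‖x‖₂`, `t = |⟨w, x⟩|`.  A compactness
  argument shows that `H + √(H² - t²) + 2 δ t ≤ 2 + 0.02 δ` for all `x`, `w` in the unit spheres of
  `ℓ_p^2`, `ℓ_q^2`.
* *Upper bound*.  The rank one operator `T x = φ(x) y` on `ℓ_p`, `φ(x) = (x₀ + x₁)/2 + x₂/√2`,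
  `y = (e₀ - e₁)/√2`, has `v(T) ≤ (1 + δ/4)/2` and `‖T‖ ≥ 1 + 0.3 δ` for small `δ > 0`.
-/

set_option autoImplicit false

open scoped ENNReal

namespace Pool.Agent.Results.MP_3da572_an.ComplexNumIndex

open Pool.Agent.H148R3.NI

/-- For complex scalars and all `p > 2` close to `2`, the numerical index of `ℓ_p` is strictly
smaller than the numerical index of `ℓ_p^2`. -/
theorem result : ∃ ε : ℝ≥0∞, 0 < ε ∧ ∀ (p : ℝ≥0∞) [Fact (1 ≤ p)], 2 < p → p < 2 + ε →
    numIndex (lp (fun _ : ℕ => ℂ) p) < numIndex (lp (fun _ : Fin 2 => ℂ) p) :=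
  main

end Pool.Agent.Results.MP_3da572_an.ComplexNumIndex
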